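import Pool.Agent.Helper70.BI.HH.StHC

/-!
# Project BI, stage 7 (H), module HL: functoriality of the horizontal composition of 2-cells
-/

set_option autoImplicit false

open scoped Topology unitInterval
open Set

namespace Pool.Agent.Helper70.HH

private theorem HL_trans {X : Type} [TopologicalSpace X] {x y z : X} {p p' p'' : Path x y}
    {q q' q'' : Path y z} (γ : Path p p') (γ' : Path p' p'') (δ : Path q q') (δ' : Path q' q'') :
    hcP (γ.trans γ') (δ.trans δ') = (hcP γ δ).trans (hcP γ' δ') := by
  apply Path.ext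
  funext s
  have h : ∀ s, hcP (γ.trans γ') (δ.trans δ') s =
      ((γ.trans γ') s).trans ((δ.trans δ') s) := fun s => rfl
  rw [h, Path.trans_apply, Path.trans_apply, Path.trans_apply]
  split
  · rfl
  · rfl

private theorem HL_refl {X : Type} [TopologicalSpace X] {x y z : X} (p : Path x y) (q : Path y z) :
    hcP (Path.refl p) (Path.refl q) = Path.refl (p.trans q) := by
  apply Path.ext
  funext s
  rfl

theorem m_HL : StHL := by
  intro X _ x y z
  refine ⟨?_, ?_⟩
  · intro p p' p'' q q' q'' α α' β β'
    obtain ⟨γ, rfl⟩ := Path.Homotopic.Quotient.mk_surjective α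
    obtain ⟨γ', rfl⟩ := Path.Homotopic.Quotient.mk_surjective α'
    obtain ⟨δ, rfl⟩ := Path.Homotopic.Quotient.mk_surjective β
    obtain ⟨δ', rfl⟩ := Path.Homotopic.Quotient.mk_surjective β'
    rw [← Path.Homotopic.Quotient.mk_trans, ← Path.Homotopic.Quotient.mk_trans, hc_mk, hc_mk, hc_mk,
      ← Path.Homotopic.Quotient.mk_trans, HL_trans]
  · intro p q
    rw [← Path.Homotopic.Quotient.mk_refl, ← Path.Homotopic.Quotient.mk_refl,
      ← Path.Homotopic.Quotient.mk_refl, hc_mk, HL_refl]

end Pool.Agent.Helper70.HH
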